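import Pool.Agent.N520.RO.Stm

/-!
Project RO: finite index by total boundedness, solvable subgroups of finite index (helper383)
-/

set_option autoImplicit false

open Set Filter Topology

namespace Pool.Agent.N383.RO

open Pool.Agent.N520.RO

theorem t_idx : S_IDX := by
  intro V _ _ _ Λ _ D N g C ε hC hε hN
  have hfd : FiniteDimensional ℝ (V →L[ℝ] V) := inferInstance
  have hps : ProperSpace (V →L[ℝ] V) := FiniteDimensional.proper_real _
  have htb := (isCompact_closedBall (0 : V →L[ℝ] V) C).totallyBounded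
  obtain ⟨t, ht, hcov⟩ := Metric.totallyBounded_iff.1 htb (ε / 2) (half_pos hε)
  have h1 : ∀ d : D, ∃ y : t, dist (g d) y < ε / 2 := by
    intro d
    have h2 : g d ∈ Metric.closedBall (0 : V →L[ℝ] V) C := by
      rw [mem_closedBall_zero_iff]
      exact hC d d.2
    obtain ⟨y, hy, hyd⟩ := Set.mem_iUnion₂.1 (hcov h2)
    exact ⟨⟨y, hy⟩, hyd⟩
  choose F hF using h1
  have hfin : Finite t := ht
  have hq : Finite (D ⧸ N.subgroupOf D) := by
    refine Finite.of_injective (fun q : D ⧸ N.subgroupOf D => F q.out) fun q q' hqq => ?_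
    have h2 : F q.out = F q'.out := hqq
    have h3 : dist (g q.out) (g q'.out) < ε := by
      have h4 := hF q.out
      have h5 := hF q'.out
      rw [h2] at h4
      rw [dist_comm] at h5
      have := dist_triangle (g q.out) (F q'.out) (g q'.out)
      linarith
    rw [dist_eq_norm] at h3
    have h6 := hN q.out q.out.2 q'.out q'.out.2 h3
    have h7 : (QuotientGroup.mk q.out : D ⧸ N.subgroupOf D) = QuotientGroup.mk q'.out := by
      rw [QuotientGroup.eq, Subgroup.mem_subgroupOf]
      exact h6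
    rwa [QuotientGroup.out_eq', QuotientGroup.out_eq'] at h7
  exact Subgroup.index_ne_zero_of_finite

theorem t_grp : S_GRP := by
  intro Λ _ N _ hNs hND hidx
  obtain ⟨D, hD⟩ : ∃ D : Subgroup Λ, D = commutator Λ := ⟨_, rfl⟩
  have hDn : D.Normal := by rw [hD]; infer_instance
  rw [← hD] at hND hidx
  have hFn : (D.map (QuotientGroup.mk' N)).Normal :=
    hDn.map _ (QuotientGroup.mk'_surjective N)
  have hFf : Finite (D.map (QuotientGroup.mk' N)) := by
    apply Nat.finite_of_card_ne_zero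
    rw [← Subgroup.relIndex_ker, QuotientGroup.ker_mk']
    exact hidx
  have hA : Finite (MulAut (D.map (QuotientGroup.mk' N))) :=
    Finite.of_injective (fun f : MulAut (D.map (QuotientGroup.mk' N)) =>
      (f : D.map (QuotientGroup.mk' N) → D.map (QuotientGroup.mk' N))) DFunLike.coe_injective
  let ψ : Λ →* MulAut (D.map (QuotientGroup.mk' N)) :=
    (MulAut.conjNormal (H := D.map (QuotientGroup.mk' N))).comp (QuotientGroup.mk' N)
  refine ⟨ψ.ker, inferInstance, ?_⟩
  obtain ⟨C, hC⟩ : ∃ C : Subgroup Λ, C = ψ.ker := ⟨_, rfl⟩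
  rw [← hC]
  -- elements of `C` commute with elements of `D` modulo `N`
  have hcomm : ∀ a ∈ C, ∀ b ∈ D, QuotientGroup.mk' N a * QuotientGroup.mk' N b =
      QuotientGroup.mk' N b * QuotientGroup.mk' N a := by
    intro a ha b hb
    rw [hC, MonoidHom.mem_ker] at ha
    have h1 : ψ a ⟨QuotientGroup.mk' N b, Subgroup.mem_map_of_mem _ hb⟩ =
        ⟨QuotientGroup.mk' N b, Subgroup.mem_map_of_mem _ hb⟩ := by
      rw [ha]
      rfl
    have h2 := congrArg Subtype.val h1
    have h3 : QuotientGroup.mk' N a * QuotientGroup.mk' N b * (QuotientGroup.mk' N a)⁻¹ =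
        QuotientGroup.mk' N b := h2
    rwa [mul_inv_eq_iff_eq_mul] at h3
  -- the group `E`
  obtain ⟨E, hE⟩ : ∃ E : Subgroup Λ, E = D ⊓ C := ⟨_, rfl⟩
  have hNE : Group.IsSolvable (N ⊓ E : Subgroup Λ) :=
    Group.isSolvable_of_isSolvable_injective (f := Subgroup.inclusion (inf_le_left : N ⊓ E ≤ N))
      (Subgroup.inclusion_injective _)
  let φ : E →* Λ ⧸ N := (QuotientGroup.mk' N).comp E.subtype
  have hφ : Group.IsSolvable φ.range := by
    refine Group.isSolvable_of_comm ?_
    rintro ⟨_, ⟨a, rfl⟩⟩ ⟨_, ⟨b, rfl⟩⟩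
    apply Subtype.ext
    have ha : a.1 ∈ D ⊓ C := by rw [← hE]; exact a.2
    have hb : b.1 ∈ D ⊓ C := by rw [← hE]; exact b.2
    exact hcomm a.1 ha.2 b.1 hb.1
  have hEs : Group.IsSolvable E := by
    refine Group.isSolvable_of_ker_le_range (Subgroup.inclusion (inf_le_right : N ⊓ E ≤ E))
      φ.rangeRestrict ?_
    intro x hx
    rw [MonoidHom.ker_rangeRestrict, MonoidHom.mem_ker] at hx
    have h1 : x.1 ∈ N := (QuotientGroup.eq_one_iff x.1).1 hx
    exact ⟨⟨x.1, h1, x.2⟩, rfl⟩
  have hEC : E ≤ C := by rw [hE]; exact inf_le_right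
  have hab : Group.IsSolvable (Λ ⧸ commutator Λ) :=
    (inferInstance : Group.IsSolvable (Abelianization Λ))
  refine Group.isSolvable_of_ker_le_range (Subgroup.inclusion hEC)
    ((QuotientGroup.mk' (commutator Λ)).comp C.subtype) ?_
  intro x hx
  rw [MonoidHom.mem_ker] at hx
  have h1 : x.1 ∈ commutator Λ := (QuotientGroup.eq_one_iff x.1).1 hx
  rw [← hD] at h1
  have h2 : x.1 ∈ E := by rw [hE]; exact ⟨h1, x.2⟩
  exact ⟨⟨x.1, h2⟩, rfl⟩

end Pool.Agent.N383.RO

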